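import Pool.Agent.P.MP_119182_lc.Defs

/-! Doubled access sequences and sets of keys that lose one key per step. -/

set_option autoImplicit false

namespace Pool.Agent.P.MP_119182_lc.TV

open Finset
open scoped Classical

theorem splayUp_root (x : ℕ) (l r : BT) (π : List Fr) :
    ∃ l' r', splayUp x l r π = BT.node l' x r' := by
  fun_induction splayUp x l r π <;> first | exact ⟨_, _, rfl⟩ | assumption

theorem access_twice (T : BT) (x : ℕ) : (access (access T x).1 x).1 = (access T x).1 := by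
  rcases h : find x T [] with _ | ⟨l, r, π⟩
  · have e : access T x = (T, 0) := by rw [access, h]
    rw [e, e]
  · obtain ⟨l', r', e1⟩ := splayUp_root x l r π
    have e : (access T x).1 = BT.node l' x r' := by rw [access, h, ← e1]
    rw [e]
    simp [access, find, splayUp]

theorem cost_flat (A : List ℕ) : ∀ T : BT, cost T A ≤ cost T (A.flatMap fun x => [x, x]) := by
  induction A with
  | nil => exact fun _ => le_rfl
  | cons x A ih =>
    intro T
    have := ih (access T x).1
    simp only [List.flatMap_cons, List.cons_append, List.nil_append, cost, access_twice]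
    omega

theorem map_half (a : ℕ → ℕ) (m : ℕ) :
    (List.range (2 * m)).map (fun i => a (i / 2)) =
      ((List.range m).map a).flatMap fun x => [x, x] := by
  induction m with
  | zero => rfl
  | succ m ih =>
    have e1 : 2 * m / 2 = m := by omega
    have e2 : (2 * m + 1) / 2 = m := by omega
    rw [show 2 * (m + 1) = 2 * m + 1 + 1 by omega, List.range_succ, List.range_succ,
      List.range_succ (n := m)]
    simp [ih, e1, e2]

theorem cost_half (T : BT) (a : ℕ → ℕ) (m : ℕ) :
    cost T ((List.range m).map a) ≤ cost T ((List.range (2 * m)).map fun i => a (i / 2)) := by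
  rw [map_half]
  exact cost_flat _ T

/-- The sum of the binary sizes up to `s`. -/
def F : ℕ → ℕ
  | 0 => 0
  | s + 1 => F s + Nat.size (s + 1)

theorem F_mono : Monotone F := monotone_nat_of_le_succ fun _ => Nat.le_add_right _ _

theorem F_le (s : ℕ) : F s ≤ s * Nat.size s := by
  induction s with
  | zero => simp [F]
  | succ s ih =>
    have := Nat.mul_le_mul_left s (Nat.size_le_size (Nat.le_succ s))
    rw [F, add_mul, one_mul]
    exact Nat.add_le_add_right (ih.trans this) _

theorem size_le_F (s : ℕ) : Nat.size s ≤ F s := by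
  cases s with
  | zero => simp
  | succ s => exact Nat.le_add_left _ _

theorem pot {A B A' q q' : ℕ} (h0 : B ≤ A) (h1 : B = q ∨ B + 1 = A)
    (h2 : (A' = q' ∧ A' ≤ B + 1) ∨ A' ≤ B) :
    Nat.size B + Nat.size A' + 2 * F A' + 2 * Nat.size q' ≤
      2 * F A + 2 * Nat.size q + 8 * Nat.size q' := by
  have e : F (B + 1) = F B + Nat.size (B + 1) := rfl
  have k1 : Nat.size B ≤ Nat.size (B + 1) := Nat.size_le_size (Nat.le_succ B)
  have k2 := F_mono h0
  by_cases h : A' ≤ B
  · have k3 := F_mono h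
    have k4 := Nat.size_le_size h
    rcases h1 with rfl | rfl <;> omega
  · obtain ⟨rfl, h3⟩ := h2.resolve_right h
    obtain rfl : A' = B + 1 := by omega
    omega

theorem next (S T : Finset ℕ) : ∃ S' : Finset ℕ, T ⊆ S →
    T ⊆ S' ∧ S' ⊆ S ∧ #(S \ S') ≤ 1 ∧ (#S' = #T ∨ #S' + 1 = #S) := by
  by_cases h : S ⊆ T
  · exact ⟨S, fun h1 => ⟨h1, Subset.rfl, by simp, Or.inl (by rw [Subset.antisymm h h1])⟩⟩
  · obtain ⟨y, h1, h2⟩ := not_subset.1 h
    refine ⟨S.erase y, fun k => ⟨subset_erase.2 ⟨k, h2⟩, erase_subset _ _, ?_, Or.inr ?_⟩⟩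
    · rw [sdiff_erase_self h1, card_singleton]
    · exact card_erase_add_one h1

/-- Along the doubled sequence one deletion per step is enough. -/
theorem lazy (n m : ℕ) (a : ℕ → ℕ) (Q : ℕ → Finset ℕ) (q2 : ∀ i < m, ∀ w ∈ Q i, 1 ≤ w ∧ w ≤ n)
    (q3 : ∀ i < m, a i ∈ Q i) (q4 : ∀ i, i + 1 < m → Q (i + 1) ⊆ insert (a (i + 1)) (Q i)) :
    ∃ W : ℕ → Finset ℕ, W 0 = Q 0 ∧ (∀ i < 2 * m, Q (i / 2) ⊆ W i) ∧
      (∀ i < 2 * m, ∀ w ∈ W i, 1 ≤ w ∧ w ≤ n) ∧
      (∀ i, i + 1 < 2 * m → W (i + 1) ⊆ insert (a ((i + 1) / 2)) (W i) ∧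
        #(insert (a ((i + 1) / 2)) (W i) \ W (i + 1)) ≤ 1) ∧
      ∑ i ∈ range (2 * m), Nat.size #(W i) ≤
        2 * (n * Nat.size #(Q 0)) + 8 * ∑ i ∈ range m, Nat.size #(Q i) := by
  choose nx hnx using next
  let W : ℕ → Finset ℕ := fun i =>
    Nat.rec (Q 0) (fun i S => nx (insert (a ((i + 1) / 2)) S) (Q ((i + 1) / 2))) i
  have st : ∀ i, i + 1 < 2 * m → Q (i / 2) ⊆ W i → Q ((i + 1) / 2) ⊆ W (i + 1) ∧
      W (i + 1) ⊆ insert (a ((i + 1) / 2)) (W i) ∧
      #(insert (a ((i + 1) / 2)) (W i) \ W (i + 1)) ≤ 1 ∧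
      (#(W (i + 1)) = #(Q ((i + 1) / 2)) ∨
        #(W (i + 1)) + 1 = #(insert (a ((i + 1) / 2)) (W i))) := by
    intro i hi h
    refine hnx _ _ ?_
    rcases (show (i + 1) / 2 = i / 2 ∨ (i + 1) / 2 = i / 2 + 1 by omega) with e | e
    · rw [e]
      exact h.trans (subset_insert _ _)
    · rw [e]
      exact (q4 _ (by omega)).trans (insert_subset_insert _ h)
  have inv : ∀ i < 2 * m, Q (i / 2) ⊆ W i ∧ ∀ w ∈ W i, 1 ≤ w ∧ w ≤ n := by
    intro i
    induction i with
    | zero => exact fun hi => ⟨Subset.rfl, q2 0 (by omega)⟩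
    | succ i ih =>
      intro hi
      obtain ⟨a1, a2⟩ := ih (by omega)
      obtain ⟨b1, b2, -⟩ := st i hi a1
      refine ⟨b1, fun w hw => ?_⟩
      rcases mem_insert.1 (b2 hw) with rfl | k
      · exact q2 _ (by omega) _ (q3 _ (by omega))
      · exact a2 w k
  have odd : ∀ k < m, #(W (2 * k + 1)) ≤ #(W (2 * k)) ∧
      (#(W (2 * k + 1)) = #(Q k) ∨ #(W (2 * k + 1)) + 1 = #(W (2 * k))) := by
    intro k hk
    have a1 := (inv (2 * k) (by omega)).1
    obtain ⟨-, b2, -, b4⟩ := st (2 * k) (by omega) a1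
    have e1 : 2 * k / 2 = k := by omega
    have e2 : (2 * k + 1) / 2 = k := by omega
    rw [e1] at a1
    rw [e2, insert_eq_of_mem (a1 (q3 k hk))] at b2 b4
    exact ⟨card_le_card b2, b4⟩
  have main : ∀ k < m, ∑ i ∈ range (2 * k + 1), Nat.size #(W i) + 2 * F #(W (2 * k)) +
      2 * Nat.size #(Q k) ≤ 2 * F #(Q 0) + 8 * ∑ i ∈ range (k + 1), Nat.size #(Q i) := by
    intro k
    induction k with
    | zero =>
      intro _
      have e : W 0 = Q 0 := rfl
      simp only [mul_zero, zero_add, sum_range_one, e]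
      omega
    | succ k ih =>
      intro hk
      have k1 := ih (by omega)
      obtain ⟨k2, k3⟩ := odd k (by omega)
      obtain ⟨-, b2, -, b4⟩ := st (2 * k + 1) (by omega) (inv _ (by omega)).1
      have e2 : (2 * k + 1 + 1) / 2 = k + 1 := by omega
      rw [e2] at b2 b4
      have b5 := card_le_card b2
      have b6 := card_insert_le (a (k + 1)) (W (2 * k + 1))
      have k4 := pot (A' := #(W (2 * k + 1 + 1))) (q' := #(Q (k + 1))) k2 k3 (by omega)
      rw [show 2 * (k + 1) = 2 * k + 1 + 1 by omega, sum_range_succ _ (2 * k + 1 + 1),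
        sum_range_succ _ (2 * k + 1), sum_range_succ (fun i => Nat.size #(Q i)) (k + 1)]
      omega
  refine ⟨W, rfl, fun i hi => (inv i hi).1, fun i hi => (inv i hi).2, fun i hi => ?_, ?_⟩
  · obtain ⟨-, b2, b3, -⟩ := st i hi (inv i (by omega)).1
    exact ⟨b2, b3⟩
  · rcases m with _ | m
    · simp
    have k1 := main m (by omega)
    have k2 := Nat.size_le_size (odd m (by omega)).1
    have k3 := size_le_F #(W (2 * m))
    have k4 : #(Q 0) ≤ n := by
      refine (card_le_card (t := Icc 1 n) fun w hw => mem_Icc.2 (q2 0 (by omega) w hw)).trans ?_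
      simp
    have k5 := (F_le #(Q 0)).trans (Nat.mul_le_mul_right _ k4)
    rw [show 2 * (m + 1) = 2 * m + 1 + 1 by omega, sum_range_succ _ (2 * m + 1)]
    omega

end Pool.Agent.P.MP_119182_lc.TV
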