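import Pool.Agent.P.MP_119182_lc.GP.Iface
import Pool.Agent.P.MP_119182_lc.TV.Lazy

/-! From sets that lose one key per step to arbitrary sets. -/

set_option autoImplicit false

namespace Pool.Agent.P.MP_119182_lc.TV

open Finset
open scoped Classical

/-- The bound for sets of keys that hold the current access and lose one key per step. -/
def S_ONE : Prop :=
  ∃ C : ℕ, ∀ (n u m : ℕ) (T : BT) (a : ℕ → ℕ) (Q : ℕ → Finset ℕ) (z : ℕ → ℕ),
    T.keys = List.range' 1 n → (∀ i < m, 1 ≤ a i ∧ a i ≤ n) →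
    (∀ i < m, ∀ w ∈ Q i, 1 ≤ w ∧ w ≤ n) → (∀ i < m, a i ∈ Q i) →
    (∀ i, i + 1 < m → Q (i + 1) ⊆ insert (a (i + 1)) (Q i) ∧
      #(insert (a (i + 1)) (Q i) \ Q (i + 1)) ≤ 1) →
    (∀ i, i + 1 < m → z i ∈ Q i) →
    cost T ((List.range m).map a) ≤ C * ((u + 1) * (n + m) + n * Nat.size #(Q 0) +
      ∑ i ∈ range m, Nat.size #(Q i) +
      ∑ i ∈ range (m - 1), Nat.log 2 (Nat.dist (a (i + 1)) (z i) / 2 ^ u + 1) ^ 5)

theorem sum_half (g G : ℕ → ℕ) (h0 : ∀ k, g (2 * k) = 0) (h1 : ∀ k, g (2 * k + 1) = G k) (m : ℕ) :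
    ∑ i ∈ range (2 * m + 1), g i = ∑ k ∈ range m, G k := by
  induction m with
  | zero => simpa using h0 0
  | succ m ih =>
    rw [sum_range_succ, h0, show 2 * (m + 1) = 2 * m + 1 + 1 by omega, sum_range_succ, ih, h1,
      sum_range_succ, add_zero]

/-- The bound for sets of keys that hold the current access. -/
theorem fin1 (h0 : S_ONE) :
    ∃ C : ℕ, ∀ (n u m : ℕ) (T : BT) (a : ℕ → ℕ) (Q : ℕ → Finset ℕ) (z : ℕ → ℕ),
    T.keys = List.range' 1 n → (∀ i < m, 1 ≤ a i ∧ a i ≤ n) →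
    (∀ i < m, ∀ w ∈ Q i, 1 ≤ w ∧ w ≤ n) → (∀ i < m, a i ∈ Q i) →
    (∀ i, i + 1 < m → Q (i + 1) ⊆ insert (a (i + 1)) (Q i)) →
    (∀ i, i + 1 < m → z i ∈ Q i) →
    cost T ((List.range m).map a) ≤ C * ((u + 1) * (n + m) + n * Nat.size #(Q 0) +
      ∑ i ∈ range m, Nat.size #(Q i) +
      ∑ i ∈ range (m - 1), Nat.log 2 (Nat.dist (a (i + 1)) (z i) / 2 ^ u + 1) ^ 5) := by
  obtain ⟨C, hC⟩ := h0
  refine ⟨C * 8, fun n u m T a Q z h2 h3 r2 r3 r4 r5 => ?_⟩
  rcases m with _ | m
  · simp [cost]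
  obtain ⟨W, w0, w1, w2, w3, w4⟩ := lazy n (m + 1) a Q r2 r3 r4
  have k := hC n u (2 * (m + 1)) T (fun i => a (i / 2)) W
    (fun i => if i % 2 = 0 then a (i / 2) else z (i / 2)) h2 (fun i hi => h3 _ (by omega)) w2
    (fun i hi => w1 i hi (r3 _ (by omega))) w3 (fun i hi => by
      refine w1 i (by omega) ?_
      split_ifs with h
      · exact r3 _ (by omega)
      · exact r5 _ (by omega))
  rw [show 2 * (m + 1) - 1 = 2 * m + 1 by omega, sum_half _
    (fun i => Nat.log 2 (Nat.dist (a (i + 1)) (z i) / 2 ^ u + 1) ^ 5) (fun k => ?_)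
    (fun k => ?_), w0] at k
  · refine (cost_half T a (m + 1)).trans (k.trans ?_)
    have k1 : (u + 1) * (n + 2 * (m + 1)) ≤ 2 * ((u + 1) * (n + (m + 1))) := by
      rw [mul_left_comm]
      exact Nat.mul_le_mul_left _ (by omega)
    rw [mul_assoc, Nat.add_sub_cancel]
    exact Nat.mul_le_mul_left _ (by omega)
  · have e1 : 2 * k / 2 = k := by omega
    have e2 : (2 * k + 1) / 2 = k := by omega
    simp [e1, e2]
  · have e1 : (2 * k + 1 + 1) / 2 = k + 1 := by omega
    have e2 : (2 * k + 1) / 2 = k := by omega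
    have e3 : ¬ (2 * k + 1) % 2 = 0 := by omega
    simp only [e1, e2, if_neg e3]

theorem size_le_log {a b : ℕ} (h : a ≤ b + 1) : Nat.size a ≤ Nat.log 2 (b + 1) + 1 :=
  Nat.size_le.2 (h.trans_lt (Nat.lt_pow_succ_log_self one_lt_two _))

/-- The bound for arbitrary sets of remembered numbers. -/
theorem fin (h0 : S_ONE) :
    ∃ C : ℕ, ∀ (n u m : ℕ) (T : BT) (a : ℕ → ℕ) (Q : ℕ → Finset ℕ) (z : ℕ → ℕ),
    T.keys = List.range' 1 n → (∀ i < m, 1 ≤ a i ∧ a i ≤ n) →
    (∀ i, i + 1 < m → Q (i + 1) ⊆ insert (a i) (Q i)) → (∀ i < m, z i ∈ Q i) →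
    cost T ((List.range m).map a) ≤ C * ((u + 1) * (n + m) + n * Nat.log 2 (#(Q 0) + 1) +
      ∑ i ∈ range m, Nat.log 2 (#(Q i) + 1) +
      ∑ i ∈ range m, Nat.log 2 (Nat.dist (a i) (z i) / 2 ^ u + 1) ^ 5) := by
  obtain ⟨C, hC⟩ := fin1 h0
  refine ⟨C * 2, fun n u m T a Q z h2 h3 r4 r5 => ?_⟩
  let c : ℕ → ℕ := fun w => max 1 (min w n)
  have hc : ∀ i < m, c (a i) = a i := fun i hi => by
    have := h3 i hi
    simp only [c]
    omega
  have hs : ∀ i, Nat.size #(insert (a i) ((Q i).image c)) ≤ Nat.log 2 (#(Q i) + 1) + 1 :=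
    fun i => size_le_log ((card_insert_le _ _).trans (Nat.succ_le_succ card_image_le))
  refine (hC n u m T a (fun i => insert (a i) ((Q i).image c))
    (fun i => if z (i + 1) = a i then a i else c (z (i + 1))) h2 h3
    (fun i hi w hw => ?_) (fun i _ => mem_insert_self _ _) (fun i hi w hw => ?_)
    (fun i hi => ?_)).trans ?_
  · have h4 := h3 i hi
    rcases mem_insert.1 hw with rfl | h
    · exact h4
    · obtain ⟨v, -, rfl⟩ := mem_image.1 h
      simp only [c]
      omega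
  · rcases mem_insert.1 hw with rfl | h
    · exact mem_insert_self _ _
    · obtain ⟨v, hv, rfl⟩ := mem_image.1 h
      refine mem_insert_of_mem ?_
      rcases mem_insert.1 (r4 i hi hv) with rfl | h1
      · rw [hc i (by omega)]
        exact mem_insert_self _ _
      · exact mem_insert_of_mem (mem_image_of_mem _ h1)
  · split_ifs with h
    · exact mem_insert_self _ _
    · rcases mem_insert.1 (r4 i hi (r5 (i + 1) hi)) with h1 | h1
      · exact absurd h1 h
      · exact mem_insert_of_mem (mem_image_of_mem _ h1)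
  · have k1 : ∑ i ∈ range (m - 1), Nat.log 2 (Nat.dist (a (i + 1))
        (if z (i + 1) = a i then a i else c (z (i + 1))) / 2 ^ u + 1) ^ 5 ≤
        ∑ i ∈ range m, Nat.log 2 (Nat.dist (a i) (z i) / 2 ^ u + 1) ^ 5 := by
      rcases m with _ | m
      · simp
      · rw [Nat.add_sub_cancel, sum_range_succ']
        refine le_trans (sum_le_sum fun i hi => ?_) (Nat.le_add_right _ _)
        refine Nat.pow_le_pow_left (Nat.log_mono_right (Nat.add_le_add_right
          (Nat.div_le_div_right ?_) 1)) 5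
        have h4 := h3 (i + 1) (by have := mem_range.1 hi; omega)
        split_ifs with h
        · rw [h]
        · simp only [c, Nat.dist]
          omega
    have k2 := sum_le_sum (s := range m) fun i _ => hs i
    rw [sum_add_distrib, sum_const, card_range, smul_eq_mul, mul_one] at k2
    have k3 := Nat.mul_le_mul_left n (hs 0)
    have k4 : n + m ≤ (u + 1) * (n + m) := Nat.le_mul_of_pos_left _ (by omega)
    rw [mul_add_one] at k3
    rw [mul_assoc]
    exact Nat.mul_le_mul_left _ (by omega)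

theorem wset_prev (a : ℕ → ℕ) (i : ℕ) : wset a i (a (i - 1)) ≤ 1 := by
  have h1 : i - 1 ≤ lastIdx a i (a (i - 1)) := by
    rcases i with _ | i
    · exact Nat.zero_le _
    · exact le_sup (f := id) (mem_filter.2 ⟨mem_range.2 (by omega), rfl⟩)
  refine card_image_le.trans ?_
  rw [Nat.card_Ioc]
  omega

theorem log_add {a b c u : ℕ} (h : a ≤ b + c) (hb : b ≤ 2 ^ (u + 2)) :
    Nat.log 2 (a + 1) ≤ u + 3 + Nat.log 2 (c + 1) := by
  have h1 := Nat.lt_pow_succ_log_self one_lt_two (c + 1)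
  generalize Nat.log 2 (c + 1) = l at h1 ⊢
  have h2 : 2 ^ (u + 2) ≤ 2 ^ (u + 3 + l) := Nat.pow_le_pow_right two_pos (by omega)
  have h3 : 2 ^ l.succ ≤ 2 ^ (u + 3 + l) := Nat.pow_le_pow_right two_pos (by omega)
  refine Nat.lt_succ_iff.1 (Nat.log_lt_of_lt_pow (by omega) ?_)
  rw [Nat.pow_succ]
  omega

/-- Each witness is recent or remembered. -/
theorem fin2 (h0 : S_ONE) (hW : GP.S_WIT) :
    ∃ C : ℕ, ∀ (n u m : ℕ) (T : BT) (a y : ℕ → ℕ) (Q : ℕ → Finset ℕ),
    T.keys = List.range' 1 n → (∀ i < m, 1 ≤ a i ∧ a i ≤ n) →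
    (∀ i, i + 1 < m → Q (i + 1) ⊆ insert (a i) (Q i)) →
    (∀ i < m, wset a i (y i) ≤ 2 ^ u ∨ y i ∈ Q i) →
    cost T ((List.range m).map a) ≤ C * ((u + 1) * (n + m) + n * Nat.log 2 (#(Q 0) + 1) +
      ∑ i ∈ range m, Nat.log 2 (#(Q i) + 1) +
      ∑ i ∈ range m, Nat.log 2 (Nat.dist (a i) (y i) / 2 ^ u + 1) ^ 5) := by
  obtain ⟨C, hC⟩ := fin h0
  refine ⟨C * 4, fun n u m T a y Q h2 h3 r4 r5 => ?_⟩
  rcases Nat.eq_zero_or_pos m with rfl | hm
  · simp [cost]
  have h6 : 1 ≤ 2 ^ u := Nat.one_le_two_pow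
  obtain ⟨W, z, q1, -, q3, q4, q5⟩ := hW n u m a
    (fun i => if wset a i (y i) ≤ 2 ^ u then y i else a (i - 1)) h3 (fun i _ => by
      split_ifs with h
      · exact h
      · exact (wset_prev a i).trans h6)
  refine (hC n u m T a (fun i => W (i - 1) ∪ Q i)
    (fun i => if wset a i (y i) ≤ 2 ^ u then (if i = 0 then a 0 else z (i - 1)) else y i) h2 h3
    (fun i hi w hw => ?_) (fun i hi => ?_)).trans ?_
  · rcases mem_union.1 hw with h | h
    · rcases i with _ | i
      · exact mem_insert_of_mem (mem_union_left _ h)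
      · rcases mem_insert.1 (q4 i (by omega) h) with rfl | h1
        · exact mem_insert_self _ _
        · exact mem_insert_of_mem (mem_union_left _ h1)
    · rcases mem_insert.1 (r4 i hi h) with rfl | h1
      · exact mem_insert_self _ _
      · exact mem_insert_of_mem (mem_union_right _ h1)
  · split_ifs with h h0
    · subst h0
      exact mem_union_left _ (q3 0 hi)
    · exact mem_union_left _ (q5 (i - 1) (by omega)).1
    · exact mem_union_right _ ((r5 i hi).resolve_left h)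
  · have h7 : ∑ i ∈ range m, Nat.log 2 (Nat.dist (a i)
        (if wset a i (y i) ≤ 2 ^ u then (if i = 0 then a 0 else z (i - 1)) else y i) /
          2 ^ u + 1) ^ 5 ≤
        ∑ i ∈ range m, Nat.log 2 (Nat.dist (a i) (y i) / 2 ^ u + 1) ^ 5 := by
      refine sum_le_sum fun i hi => Nat.pow_le_pow_left (Nat.log_mono_right
        (Nat.add_le_add_right (Nat.div_le_div_right ?_) 1)) 5
      split_ifs with h h0
      · subst h0
        simp
      · obtain ⟨j, rfl⟩ := Nat.exists_eq_succ_of_ne_zero h0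
        have h8 := (q5 j (mem_range.1 hi)).2
        simp only [Nat.succ_eq_add_one] at h ⊢
        rwa [if_pos h] at h8
      · exact le_rfl
    have hs : ∀ i < m, Nat.log 2 (#(W (i - 1) ∪ Q i) + 1) ≤ u + 3 + Nat.log 2 (#(Q i) + 1) :=
      fun i hi => log_add (card_union_le _ _) (q1 (i - 1) (by omega))
    have k2 := sum_le_sum (s := range m) fun i hi => hs i (mem_range.1 hi)
    rw [sum_add_distrib, sum_const, card_range, smul_eq_mul] at k2
    have k3 := Nat.mul_le_mul_left n (hs 0 hm)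
    rw [mul_add] at k3
    have h9 : n * (u + 3) + m * (u + 3) ≤ 3 * ((u + 1) * (n + m)) := by
      rw [← add_mul, ← mul_assoc, mul_comm (n + m)]
      exact Nat.mul_le_mul_right _ (by omega)
    rw [mul_assoc]
    exact Nat.mul_le_mul_left _ (by omega)

end Pool.Agent.P.MP_119182_lc.TV
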