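import Pool.Agent.P.MP_119182_lc.GP.All
import Pool.Agent.P.MP_119182_lc.TV.Fin

/-! The bound for sets of remembered keys whose size changes with the time. -/

set_option autoImplicit false

namespace Pool.Agent.P.MP_119182_lc.TV

open Finset
open scoped Classical
open NU (mr)
open IT (Marks One mq)
open GP

/-- The price of the sizes of the sets of marks. -/
noncomputable def sw (n m : ℕ) (Q : ℕ → Finset ℤ) : ℕ :=
  Nat.size #(Q 0) * n + 5 * ∑ t ∈ range m, Nat.size #(Q t)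

theorem sw_mq (n m : ℕ) (Q : ℕ → Finset ℤ) : sw n m (mq Q) = sw n m Q := by
  have e : ∀ t, #(mq Q t) = #(Q t) := fun t =>
    card_image_of_injective _ fun _ _ h => NU.mr_inj.1 h
  simp only [sw, e]

theorem up {d : NU.Run} {c Z : ℕ} {Q : ℕ → Finset ℤ} (hd : d.OK)
    (hQ : Marks d.L d.R d.m d.x c Z Q) :
    ∑ t ∈ range d.m, IT.up d Q t ≤ sw (d.R - d.L).toNat d.m Q := by
  have main : ∀ k ≤ d.m,
      ∑ v ∈ Ioo d.L d.R, IT.UPx.sz (Q (k - 1)) (d.lp k v) (d.rp k v) +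
        ∑ t ∈ range k, IT.up d Q t ≤ sw (d.R - d.L).toNat k Q := by
    intro k hk
    induction k with
    | zero =>
      have := sum_le_card_nsmul (Ioo d.L d.R) (fun v => IT.UPx.sz (Q 0) (d.lp 0 v) (d.rp 0 v)) _
        fun v _ => IT.UPx.sz_top (le_refl #(Q 0)) _ _
      rw [Int.card_Ioo, smul_eq_mul, mul_comm] at this
      simpa [sw] using this.trans (Nat.mul_le_mul_left _ (by omega))
    | succ k ih =>
      have k1 := ih (by omega)
      have k2 := IT.UPx.step IT.p_TWO (IT.p_PAIR IT.p_TWO) NU.a_EMIR hd (t := k) hk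
        (M := Q (k - 1)) (le_refl #(Q k)) fun z hz h => by
          rcases k with _ | k
          · exact hz
          · exact (mem_insert.1 (hQ.sub k hk hz)).resolve_left h
      unfold sw at k1 ⊢
      rw [sum_range_succ, sum_range_succ, Nat.add_sub_cancel]
      unfold IT.up at k1 ⊢
      omega
  have := main d.m le_rfl
  omega

theorem gap (K : ℕ) : ∃ C : ℕ, ∀ (σ J c Z : ℕ) (d : NU.Run) (Q : ℕ → Finset ℤ), d.OK →
    d.L / 2 ^ J = d.R / 2 ^ J → Marks d.L d.R d.m d.x c Z Q → One d.m d.x Q →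
    K * ∑ t ∈ range d.m, out (its σ d.L d.R Q) d t ≤ 16 * d.NR +
      C * ((d.R - d.L).toNat + d.m + sw (d.R - d.L).toNat d.m Q +
        we σ J d.L d.R d.m d.x Q) := by
  obtain ⟨C, hC⟩ := a_LEFT K
  refine ⟨23 * K + 12 * C + 12 * (K * (K + 1)), fun σ J c Z d Q ok hJ mk one => ?_⟩
  have mm := (IT.p_LAZY _ _ _ _ _ _ _ mk).2
  obtain ⟨dt, sd, lab, sy, i1⟩ := a_INST σ J c Z d Q ok hJ mk one
  have l1 := hC _ d Q dt sd lab sy
  have l2 := p_RIGHT IT.p_TWO NU.a_EMIR K _ d Q dt sd lab sy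
  have u1 := up ok mk
  have u2 := up (d := d.mir) (Q := mq Q) (NU.a_EMIR d |>.2 ok) mm
  have k1 : (d.mir.R - d.mir.L).toNat = (d.R - d.L).toNat := by
    change (mr d.L - mr d.R).toNat = _
    unfold mr
    omega
  have k2 : d.mir.m = d.m := rfl
  rw [k1, k2, sw_mq] at u2
  have s1 : ∑ t ∈ range d.m, out (its σ d.L d.R Q) d t ≤ ∑ t ∈ range d.m, (IT.up d Q t + 4 +
      2 * (#((own (its σ d.L d.R Q) d Q t).filter fun B => sd t B) +
        #((own (its σ d.L d.R Q) d Q t).filter fun B => ¬ sd t B))) :=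
    sum_le_sum fun t ht => by
      rw [card_filter_add_card_filter_not]
      exact p_CLS IT.p_TWO _ d Q ok sy.items t (mem_range.1 ht)
  simp only [sum_add_distrib, ← mul_sum, sum_const, card_range, smul_eq_mul] at s1
  generalize (d.R - d.L).toNat = n at *
  exact GAPx.num s1 l1 l2 (by omega) (by omega) (by omega) (by omega)

theorem link : ∃ C : ℕ, ∀ (σ J c Z : ℕ) (d : NU.Run) (Q : ℕ → Finset ℤ), d.OK →
    d.L / 2 ^ J = d.R / 2 ^ J → Marks d.L d.R d.m d.x c Z Q → One d.m d.x Q →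
    100 * (d.LamR + d.mir.LamR) ≤ d.NR + d.mir.NR +
      C * ((σ + 1) * ((d.R - d.L).toNat + d.m) + sw (d.R - d.L).toNat d.m Q +
        we σ J d.L d.R d.m d.x Q) := by
  obtain ⟨C, hC⟩ := Ap.lp
  obtain ⟨C1, hC1⟩ : ∃ C1, C1 = C * 800 ^ 3 := ⟨_, rfl⟩
  obtain ⟨C2, hG⟩ := gap (64 * (C1 + 800))
  refine ⟨96 * (C1 + 800) + C2 + 151 * C1, fun σ J c Z d Q ok hJ mk one => ?_⟩
  have okm := (NU.a_EMIR d).2 ok
  obtain ⟨-, m1, m2, m3⟩ := p_MIRW σ J d.L d.R d.m d.x Q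
  have l1 := hC σ 800 J d (cold σ d Q) ok (p_COLD p_ITEM σ c Z d Q mk) hJ (by norm_num)
  have l2 := p_LIV (p_COLD p_ITEM) p_BORN Ap.en σ J c Z d Q mk
  obtain ⟨-, s1, s2⟩ := p_SIDE d ok
  have s2 := s2 (cold σ d Q)
  have n1 := p_NPB p_ITEM p_SIDE p_MIRW IT.p_TWO NU.a_EMIR σ d Q ok
  have g1 := hG σ J c Z d Q ok hJ mk one
  have g2 := hG σ J c Z d.mir (mq Q) okm (m1 hJ) (IT.p_LAZY _ _ _ _ _ _ _ mk).2 (m2 one)
  have i1 := IT.p_INT IT.p_TWO (IT.p_PAIR IT.p_TWO) NU.a_EMIR (σ + 1) d ok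
  have i2 := IT.p_INT IT.p_TWO (IT.p_PAIR IT.p_TWO) NU.a_EMIR (σ + 1) d.mir okm
  have k1 : (d.mir.R - d.mir.L).toNat = (d.R - d.L).toNat := by
    change (mr d.L - mr d.R).toNat = _
    unfold mr
    omega
  have k2 : d.mir.m = d.m := rfl
  have k3 : we σ J d.mir.L d.mir.R d.m d.mir.x (mq Q) = we σ J d.L d.R d.m d.x Q := m3
  rw [k1, k2] at i2
  rw [k1, k2, k3, sw_mq] at g2
  rw [← hC1] at l1
  rw [sum_add_distrib, sum_add_distrib] at n1
  generalize (d.R - d.L).toNat = n at *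
  generalize we σ J d.L d.R d.m d.x Q = w at *
  generalize sw n d.m Q = V at *
  have w2 : (σ + 1 + 1) * (2 * n + 6 * d.m) ≤ 12 * ((σ + 1) * (n + d.m)) :=
    calc (σ + 1 + 1) * (2 * n + 6 * d.m) ≤ (2 * (σ + 1)) * (6 * (n + d.m)) :=
          Nat.mul_le_mul (by omega) (by omega)
      _ = _ := by ring
  have w3 : n + d.m ≤ (σ + 1) * (n + d.m) := Nat.le_mul_of_pos_left _ (by omega)
  generalize (σ + 1) * (n + d.m) = W at *
  obtain ⟨X, hX⟩ : ∃ X, X = W + V + w := ⟨_, rfl⟩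
  rw [← hX]
  have w4 : C2 * (n + d.m + V + w) ≤ C2 * X := Nat.mul_le_mul_left _ (by omega)
  generalize ∑ t ∈ range d.m, out (its σ d.L d.R Q) d t = O1 at *
  generalize ∑ t ∈ range d.m, out (its σ d.mir.L d.mir.R (mq Q)) d.mir t = O2 at *
  generalize #(LP.NP d (cold σ d Q)) = P at *
  have w5 : (C1 + 800) * P ≤ (C1 + 800) * (24 * X + O1 + O2) := Nat.mul_le_mul_left _ (by omega)
  have w6 : C1 * (n + d.m + P + ∑ j ∈ range J, (j - σ) ^ 4 * #(LP.LV d (cold σ d Q) j)) ≤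
      C1 * (P + 151 * X) := Nat.mul_le_mul_left _ (by omega)
  rw [mul_assoc] at g1 g2
  have e1 : (C1 + 800) * (24 * X + O1 + O2) =
      24 * (C1 * X) + 19200 * X + (C1 + 800) * O1 + (C1 + 800) * O2 := by ring
  have e2 : C1 * (P + 151 * X) = C1 * P + 151 * (C1 * X) := by ring
  have e3 : (C1 + 800) * P = C1 * P + 800 * P := by ring
  have e4 : (96 * (C1 + 800) + C2 + 151 * C1) * X = 247 * (C1 * X) + 76800 * X + C2 * X := by ring
  omega

/-- Marks with a good shift, from given sets of keys. -/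
theorem mark (n u m : ℕ) (a : ℕ → ℕ) (Q : ℕ → Finset ℕ) (z : ℕ → ℕ)
    (q2 : ∀ i < m, ∀ w ∈ Q i, 1 ≤ w ∧ w ≤ n) (q3 : ∀ i < m, a i ∈ Q i)
    (q4 : ∀ i, i + 1 < m → Q (i + 1) ⊆ insert (a (i + 1)) (Q i) ∧
      #(insert (a (i + 1)) (Q i) \ Q (i + 1)) ≤ 1)
    (q5 : ∀ i, i + 1 < m → z i ∈ Q i) :
    ∃ (s J Z : ℕ) (Q' : ℕ → Finset ℤ), (s : ℤ) / 2 ^ J = ((s : ℤ) + n + 1) / 2 ^ J ∧
      Marks s ((s : ℤ) + n + 1) m (fun i => (a i : ℤ) + s) n Z Q' ∧
      One m (fun i => (a i : ℤ) + s) Q' ∧ (∀ i, #(Q' i) = #(Q i)) ∧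
      we u J s ((s : ℤ) + n + 1) m (fun i => (a i : ℤ) + s) Q' ≤
        400 * ∑ i ∈ range (m - 1),
          (Nat.log 2 (Nat.dist (a (i + 1)) (z i) / 2 ^ u + 1) + 1) ^ 5 := by
  obtain ⟨T, hT⟩ : ∃ T, n + 1 < 2 ^ T := ⟨n + 1, Nat.lt_two_pow_self⟩
  let g : ℕ → ℕ → ℕ := fun s t => ∑ j ∈ Ioo u (T + 1),
    (if (a (t + 1) + s) / 2 ^ j ≠ (z t + s) / 2 ^ j then (j - u) ^ 4 else 0)
  let G : ℕ → ℕ := fun i => (Nat.log 2 (Nat.dist (a (i + 1)) (z i) / 2 ^ u + 1) + 1) ^ 5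
  obtain ⟨s, hs, hg⟩ := exists_le_of_sum_le (s := range (2 ^ T))
    (f := fun s => ∑ t ∈ range (m - 1), g s t) (g := fun _ => 400 * ∑ i ∈ range (m - 1), G i)
    ⟨0, mem_range.2 (by positivity)⟩ (by
      rw [sum_comm, sum_const, card_range, smul_eq_mul]
      calc ∑ t ∈ range (m - 1), ∑ s ∈ range (2 ^ T), g s t
          ≤ ∑ t ∈ range (m - 1), 2 ^ T * (400 * G t) :=
            sum_le_sum fun t _ => p_AVG u T _ _
        _ ≤ _ := by rw [← mul_sum, ← mul_sum])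
  have hs' := mem_range.1 hs
  have inj : Function.Injective fun w : ℕ => (w : ℤ) + s := fun v w h => by
    simp only at h
    omega
  refine ⟨s, T + 1, ∑ i ∈ range (m - 1), Nat.dist (a (i + 1)) (z i),
    fun i => (Q i).image fun w : ℕ => (w : ℤ) + s, ?_, ?_, fun i hi => ?_,
    fun i => card_image_of_injective _ inj, le_trans (sum_le_sum fun t ht => ?_) hg⟩
  · have h1 : ((s + n + 1 : ℕ) : ℤ) < ((2 ^ (T + 1) : ℕ) : ℤ) := by
      rw [Nat.cast_lt, pow_succ]; omega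
    push_cast at h1
    rw [Int.ediv_eq_zero_of_lt (by omega) (by omega), Int.ediv_eq_zero_of_lt (by omega) h1]
  · refine ⟨fun i hi => card_image_le.trans ?_, fun i hi w hw => ?_,
      fun i hi => mem_image_of_mem _ (q3 i hi), fun i hi w hw => ?_,
      fun i => Nat.dist (a (i + 1)) (z i), le_rfl, fun i hi =>
        ⟨_, mem_image_of_mem _ (q5 i hi), ?_⟩⟩
    · refine (card_le_card (t := Icc 1 n) fun w hw => mem_Icc.2 (q2 i hi w hw)).trans ?_
      simp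
    · obtain ⟨w, h1, rfl⟩ := mem_image.1 hw
      have := q2 i hi w h1
      omega
    · obtain ⟨w, h1, rfl⟩ := mem_image.1 hw
      rcases mem_insert.1 ((q4 i hi).1 h1) with h | h
      · rw [h]; exact mem_insert_self _ _
      · exact mem_insert_of_mem (mem_image_of_mem _ h)
    · simp only [Nat.dist]
      rw [abs_le]
      omega
  · refine le_trans (le_of_eq ?_) (card_image_le.trans (q4 i hi).2 :
      #((insert (a (i + 1)) (Q i) \ Q (i + 1)).image fun w : ℕ => (w : ℤ) + s) ≤ 1)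
    rw [image_sdiff _ _ inj, image_insert]
  · have h0 : t + 1 < m := by have := mem_range.1 ht; omega
    rw [hit, sum_filter]
    refine sum_le_sum fun j _ => ?_
    split_ifs with h1 h2
    · exact le_rfl
    · refine absurd ?_ (h1.2.2 _ (mem_image_of_mem _ (q5 t h0)))
      have := congrArg (Nat.cast : ℕ → ℤ) (not_not.1 h2)
      push_cast at this
      exact this.symm
    · exact Nat.zero_le _
    · exact le_rfl

theorem fin0 : S_ONE := by
  obtain ⟨C, hC⟩ := link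
  refine ⟨12808 * C + 40, fun n u m T a Q0 z h2 h3 r2 r3 r4 r5 => ?_⟩
  rcases Nat.eq_zero_or_pos n with rfl | hn
  · rcases Nat.eq_zero_or_pos m with rfl | hm
    · simp [cost]
    · have := h3 0 hm
      omega
  obtain ⟨s, J, Z, Q, q1, q2, q3, q0, q4⟩ := mark n u m a Q0 z r2 r3 r4 r5
  have k4 : n + m ≤ (u + 1) * (n + m) := Nat.le_mul_of_pos_left _ (by omega)
  have q5 := FINx.sm (m - 1) fun i => Nat.log 2 (Nat.dist (a (i + 1)) (z i) / 2 ^ u + 1)
  have q6 : (u + 1) * (n + 1 + m) ≤ 2 * ((u + 1) * (n + m)) := by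
    rw [mul_left_comm]
    exact Nat.mul_le_mul_left _ (by omega)
  have q7 : sw (n + 1) m Q ≤ 2 * (n * Nat.size #(Q0 0)) + 5 * ∑ i ∈ range m, Nat.size #(Q0 i) := by
    simp only [sw, q0]
    refine Nat.add_le_add_right ?_ _
    rw [mul_comm, ← mul_assoc]
    exact Nat.mul_le_mul_right _ (by omega)
  generalize ∑ i ∈ range (m - 1),
    Nat.log 2 (Nat.dist (a (i + 1)) (z i) / 2 ^ u + 1) ^ 5 = S at q5 ⊢
  generalize (u + 1) * (n + m) = A at k4 q6 ⊢
  generalize n * Nat.size #(Q0 0) = B at q7 ⊢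
  generalize ∑ i ∈ range m, Nat.size #(Q0 i) = D at q7 ⊢
  have key : ∀ f : NU.Run, f.OK → f.L = s → f.R = (s : ℤ) + n + 1 → f.m = m →
      (f.x = fun i => (a i : ℤ) + s) →
      100 * (f.LamR + f.mir.LamR) ≤ f.NR + f.mir.NR + C * (12808 * (A + B + D + S)) := by
    intro f hf f1 f2 f3 f4
    have l1 := hC u J n Z f Q hf (by rw [f1, f2]; exact q1)
      (by rw [f1, f2, f3, f4]; exact q2) (by rw [f3, f4]; exact q3)
    have k1 : (f.R - f.L).toNat = n + 1 := by omega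
    rw [k1, f1, f2, f3, f4] at l1
    refine l1.trans (Nat.add_le_add_left (Nat.mul_le_mul_left C ?_) _)
    omega
  obtain ⟨d, d1, d2, d3, d4, d5, d6, d7, d8⟩ := NU.a_BRG n m s T a h2 h3
  obtain ⟨e, e1, e2, e3, e4⟩ := NU.a_ALGA d d5
  have t := NU.a_TURN d e d5 e2 e1 d6 d7
  obtain ⟨f1, f2, f3, f4⟩ := e1
  have l1 := key d d5 d1 d2 d3 d4
  have l2 := key e e2 (f1.trans d1) (f2.trans d2) (f3.trans d3) (f4.trans d4)
  rw [f3, d3] at e3 e4
  have k3 : (d.R - d.L).toNat = n + 1 := by omega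
  rw [k3, d3] at t
  have k5 : (12808 * C + 40) * (A + B + D + S) =
      C * (12808 * (A + B + D + S)) + 40 * (A + B + D + S) := by ring
  omega

end Pool.Agent.P.MP_119182_lc.TV
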